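import Pool.Agent.H535Z.HG.St

set_option autoImplicit false

namespace Pool.Agent.H53Z.HG

open Pool.Agent.H668Z.SC Pool.Agent.H535Z.HG Subgroup

variable {G : Type} [Group G]

theorem thm_cyc : S_cyc := by
  intro G _ g F hF h1 h2
  let C : Subgroup G := centralizer {g}
  have hC : ∀ a : G, a ∈ C ↔ Commute a g := fun a => by
    rw [mem_centralizer_singleton_iff]; rfl
  let Z : Subgroup C := (zpowers g).subgroupOf C
  have hfin : Finite (C ⧸ Z) := by
    have : Finite {f : C | (f : G)⁻¹ ∈ F} := by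
      refine Set.Finite.to_subtype ?_
      have : {f : C | (f : G)⁻¹ ∈ F} = (fun f : C => (f : G)⁻¹) ⁻¹' F := rfl
      rw [this]
      exact hF.preimage fun a _ b _ h => Subtype.ext (inv_injective h)
    refine Finite.of_surjective (fun f : {f : C | (f : G)⁻¹ ∈ F} => (QuotientGroup.mk f.1 : C ⧸ Z)) ?_
    intro q
    obtain ⟨a, rfl⟩ := QuotientGroup.mk_surjective q
    obtain ⟨f, hf, hz⟩ := h1 (a : G)⁻¹ ((hC _).1 (C.inv_mem a.2))
    have hzC : (a : G)⁻¹ * f⁻¹ ∈ C := by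
      obtain ⟨k, hk⟩ := mem_zpowers_iff.1 hz
      rw [← hk, hC]
      exact (Commute.refl g).zpow_left k
    have hfC : f⁻¹ ∈ C := by
      have := C.mul_mem a.2 hzC
      simpa using this
    refine ⟨⟨⟨f⁻¹, hfC⟩, by simpa using hf⟩, ?_⟩
    symm
    rw [QuotientGroup.eq]
    exact hz
  have hZi : Z.FiniteIndex := finiteIndex_of_finite_quotient
  have hZc : Z ≤ center C := by
    intro z hz
    rw [mem_center_iff]
    intro a
    obtain ⟨k, hk⟩ := mem_zpowers_iff.1 (mem_subgroupOf.1 hz)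
    apply Subtype.ext
    change (a : G) * z = z * a
    rw [← hk]
    exact ((hC _).1 a.2).zpow_right k
  have hci : (center C).FiniteIndex := finiteIndex_of_le hZc
  have htf : ∀ (a : C) (q : ℕ), q ≠ 0 → a ^ q = 1 → a = 1 := by
    intro a q hq h
    apply Subtype.ext
    refine h2 a ((hC _).1 a.2) (isOfFinOrder_iff_pow_eq_one.2 ⟨q, Nat.pos_of_ne_zero hq, ?_⟩)
    exact_mod_cast congrArg Subtype.val h
  have hinj : Function.Injective (MonoidHom.transferCenterPow C) := by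
    rw [injective_iff_map_eq_one]
    intro a ha
    refine htf a _ hci.index_ne_zero ?_
    have := congrArg Subtype.val ha
    rwa [MonoidHom.transferCenterPow_apply] at this
  have hcomm : ∀ a b : C, a * b = b * a := by
    intro a b
    apply hinj
    rw [map_mul, map_mul]
    apply Subtype.ext
    exact (mem_center_iff.1 (MonoidHom.transferCenterPow C b).2 _)
  have hZn : Z.Normal := ⟨fun z hz a => by
    rw [hcomm a z, mul_inv_cancel_right]; exact hz⟩
  let φ : C →* zpowers g :=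
    { toFun := fun a => ⟨(a ^ Z.index : C), mem_subgroupOf.1 (Z.pow_index_mem a)⟩
      map_one' := by simp
      map_mul' := fun a b => by
        apply Subtype.ext
        have : (a * b) ^ Z.index = a ^ Z.index * b ^ Z.index := Commute.mul_pow (hcomm a b) _
        simp [this] }
  have hφ : Function.Injective φ := by
    rw [injective_iff_map_eq_one]
    intro a ha
    refine htf a _ hZi.index_ne_zero (Subtype.ext ?_)
    have : ((φ a : zpowers g) : G) = 1 := by rw [ha]; rfl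
    exact this
  have hcyc : IsCyclic C := isCyclic_of_injective φ hφ
  obtain ⟨s, hs⟩ := hcyc.exists_zpow_surjective
  refine ⟨s, fun a => ⟨fun ha => ?_, fun ha => ?_⟩⟩
  · obtain ⟨k, hk⟩ := hs ⟨a, (hC a).2 ha⟩
    refine mem_zpowers_iff.2 ⟨k, ?_⟩
    have := congrArg Subtype.val hk
    simpa using this
  · obtain ⟨k, rfl⟩ := mem_zpowers_iff.1 ha
    exact ((hC _).1 s.2).zpow_left k

theorem conj_mem_zpowers {s x h : G} (hx : x ∈ Epm s) (hh : h ∈ zpowers s) :
    x * h * x⁻¹ ∈ zpowers s := by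
  obtain ⟨k, rfl⟩ := mem_zpowers_iff.1 hh
  rw [← conj_zpow]
  rcases hx with hx | hx <;> rw [hx]
  · exact zpow_mem (mem_zpowers s) k
  · exact zpow_mem (inv_mem (mem_zpowers s)) k

/-- the group generated by `s` and an element of order at most two normalising it -/
def Hsx (s x : G) (hxx : x * x = 1) (hx : x ∈ Epm s) : Subgroup G where
  carrier := {h | h ∈ zpowers s ∨ h * x ∈ zpowers s}
  one_mem' := Or.inl (one_mem _)
  mul_mem' := by
    have hi : x⁻¹ = x := inv_eq_of_mul_eq_one_right hxx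
    rintro a b (ha | ha) (hb | hb)
    · exact Or.inl (mul_mem ha hb)
    · right; rw [mul_assoc]; exact mul_mem ha hb
    · right
      have := mul_mem ha (conj_mem_zpowers hx hb)
      have e : a * x * (x * b * x⁻¹) = a * (x * x) * b * x⁻¹ := by group
      rwa [e, hxx, hi, mul_one] at this
    · left
      have := mul_mem ha (conj_mem_zpowers hx hb)
      have e : a * x * (x * (b * x) * x⁻¹) = a * (x * x) * b := by group
      rwa [e, hxx, mul_one] at this
  inv_mem' := by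
    have hi : x⁻¹ = x := inv_eq_of_mul_eq_one_right hxx
    rintro a (ha | ha)
    · exact Or.inl (inv_mem ha)
    · right
      have := conj_mem_zpowers hx (inv_mem ha)
      have e : x * (a * x)⁻¹ * x⁻¹ = a⁻¹ * x⁻¹ := by group
      rwa [e, hi] at this

theorem finite_Hsx {s x : G} (hxx : x * x = 1) (hx : x ∈ Epm s) (hs : IsOfFinOrder s) :
    Finite (Hsx s x hxx hx) := by
  have h1 : (zpowers s : Set G).Finite := hs.finite_zpowers
  have h2 : ((fun h => h * x) ⁻¹' (zpowers s : Set G)).Finite :=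
    h1.preimage fun a _ b _ h => mul_right_cancel h
  exact (h1.union h2).to_subtype

theorem odd_of_mem {ρ h : G} (hρ : Odd (orderOf ρ)) (hh : h ∈ zpowers ρ) : Odd (orderOf h) :=
  hρ.of_dvd_nat (orderOf_dvd_of_mem_zpowers hh)

theorem eq_one_of_odd_sq {h : G} (ho : Odd (orderOf h)) (h2 : h * h = 1) : h = 1 := by
  have h3 : orderOf h ∣ 2 := orderOf_dvd_of_pow_eq_one (by rw [pow_two]; exact h2)
  rcases (Nat.dvd_prime Nat.prime_two).1 h3 with h4 | h4
  · exact orderOf_eq_one_iff.1 h4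
  · rw [h4] at ho; exact absurd ho (by decide)

theorem inverts {ρ j x h : G} (hj : j * ρ * j⁻¹ = ρ⁻¹) (hjj : j * j = 1)
    (hx : x * j ∈ zpowers ρ) (hh : h ∈ zpowers ρ) : x * h * x⁻¹ = h⁻¹ := by
  obtain ⟨k, hk⟩ := mem_zpowers_iff.1 hx
  obtain ⟨l, rfl⟩ := mem_zpowers_iff.1 hh
  have hi : j⁻¹ = j := inv_eq_of_mul_eq_one_right hjj
  have hx' : x = ρ ^ k * j := by rw [hk, mul_assoc, hjj, mul_one]
  have e : j * ρ ^ l * j⁻¹ = (ρ ^ l)⁻¹ := by rw [← conj_zpow, hj, inv_zpow]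
  calc x * ρ ^ l * x⁻¹ = ρ ^ k * (j * ρ ^ l * j⁻¹) * (ρ ^ k)⁻¹ := by rw [hx']; group
    _ = (ρ ^ l)⁻¹ := by rw [e]; group

theorem sq_of_refl {ρ j x : G} (hj : j * ρ * j⁻¹ = ρ⁻¹) (hjj : j * j = 1)
    (hx : x * j ∈ zpowers ρ) : x * x = 1 := by
  have h1 := inverts hj hjj hx hx
  have hi : j⁻¹ = j := inv_eq_of_mul_eq_one_right hjj
  have e : x * x = (x * (x * j) * x⁻¹) * (x * j⁻¹) := by group
  rw [e, h1, hi]; group

theorem dih_comm (hD : Dih G) {a x : G} (hxx : x * x = 1) (hx1 : x ≠ 1) (ha : IsOfFinOrder a)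
    (hc : Commute a x) : a = 1 ∨ a = x := by
  have hx : x ∈ Epm a := Or.inl (by rw [← hc.eq]; group)
  obtain ⟨ρ, j, hρ, h⟩ := hD _ (finite_Hsx hxx hx ha)
  have hxH : x ∈ Hsx a x hxx hx := Or.inr (by rw [hxx]; exact one_mem _)
  have haH : a ∈ Hsx a x hxx hx := Or.inl (mem_zpowers a)
  rcases h x hxH with h1 | ⟨h1, hjj, hj⟩
  · exact absurd (eq_one_of_odd_sq (odd_of_mem hρ h1) hxx) hx1
  have key : ∀ b ∈ zpowers ρ, Commute b x → b = 1 := by
    intro b hb hbc
    have e := inverts hj hjj h1 hb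
    rw [← hbc.eq, mul_inv_cancel_right] at e
    refine eq_one_of_odd_sq (odd_of_mem hρ hb) ?_
    nth_rewrite 1 [e]
    exact inv_mul_cancel b
  rcases h a haH with h2 | ⟨h2, -, -⟩
  · exact Or.inl (key a h2 hc)
  · right
    have h3 : a * x⁻¹ ∈ zpowers ρ := by
      have := mul_mem h2 (inv_mem h1)
      have e : a * j * (x * j)⁻¹ = a * x⁻¹ := by group
      rwa [e] at this
    have := key _ h3 (hc.mul_left (Commute.refl x).inv_left)
    exact mul_inv_eq_one.1 this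

theorem pigeon {g s : G} {F : Set G} (hF : F.Finite)
    (h : ∀ a : G, Commute a g → ∃ f ∈ F, a * f⁻¹ ∈ zpowers g) (hs : Commute s g) :
    ∃ k : ℤ, k ≠ 0 ∧ s ^ k ∈ zpowers g := by
  choose f hf1 hf2 using fun k : ℤ => h (s ^ k) (hs.zpow_left k)
  have : Finite F := hF.to_subtype
  obtain ⟨k, l, hkl, he⟩ := Finite.exists_ne_map_eq_of_infinite fun k : ℤ => (⟨f k, hf1 k⟩ : F)
  have he' : f k = f l := congrArg Subtype.val he
  refine ⟨k - l, sub_ne_zero.2 hkl, ?_⟩
  have := mul_mem (hf2 k) (inv_mem (hf2 l))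
  have e : s ^ k * (f k)⁻¹ * (s ^ l * (f l)⁻¹)⁻¹ = s ^ (k - l) := by rw [he']; group
  rwa [e] at this

theorem zpow_inj {s : G} (hs : ¬ IsOfFinOrder s) {k l : ℤ} (h : s ^ k = s ^ l) : k = l :=
  injective_zpow_iff_not_isOfFinOrder.2 hs h

theorem not_fin_zpow {s : G} (hs : ¬ IsOfFinOrder s) {k : ℤ} (hk : k ≠ 0) :
    ¬ IsOfFinOrder (s ^ k) := by
  intro h
  obtain ⟨n, hn, h1⟩ := isOfFinOrder_iff_pow_eq_one.1 h
  rw [← zpow_natCast, ← zpow_mul, ← zpow_zero s] at h1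
  have := zpow_inj hs h1
  rcases mul_eq_zero.1 this with h2 | h2
  · exact hk h2
  · omega

theorem thm_mal (hvc : S_vc) : S_mal := by
  intro G _ i z y hH hA x x' a hxx hx1 hxx' hx1' hne hc hc'
  by_cases ha : IsOfFinOrder a
  · rcases dih_comm hA.dih hxx hx1 ha hc with h | h
    · exact h
    rcases dih_comm hA.dih hxx' hx1' ha hc' with h' | h'
    · exact h'
    exact absurd (h.symm.trans h') hne
  exfalso
  have hi : x⁻¹ = x := inv_eq_of_mul_eq_one_right hxx
  have hi' : x'⁻¹ = x' := inv_eq_of_mul_eq_one_right hxx'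
  have hs1 : x * x' ≠ 1 := fun h => hne (by
    have := inv_eq_of_mul_eq_one_right h
    rwa [hi] at this)
  have hinv : x * (x * x') * x⁻¹ = (x * x')⁻¹ := by
    rw [mul_inv_rev, hi, hi', ← mul_assoc, hxx, one_mul]
  have hcs : Commute a (x * x') := hc.mul_right hc'
  by_cases hs : IsOfFinOrder (x * x')
  · have hx : x ∈ Epm (x * x') := Or.inr hinv
    obtain ⟨ρ, j, hρ, h⟩ := hA.dih _ (finite_Hsx hxx hx hs)
    have hxH : x ∈ Hsx (x * x') x hxx hx := Or.inr (by rw [hxx]; exact one_mem _)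
    have hxH' : x' ∈ Hsx (x * x') x hxx hx := Or.inr (by
      have := inv_mem (mem_zpowers (x * x'))
      rwa [mul_inv_rev, hi, hi'] at this)
    rcases h x hxH with h1 | ⟨h1, -, -⟩
    · exact hx1 (eq_one_of_odd_sq (odd_of_mem hρ h1) hxx)
    rcases h x' hxH' with h2 | ⟨h2, -, -⟩
    · exact hx1' (eq_one_of_odd_sq (odd_of_mem hρ h2) hxx')
    have h3 : x * x' ∈ zpowers ρ := by
      have := mul_mem h1 (inv_mem h2)
      have e : x * j * (x' * j)⁻¹ = x * x'⁻¹ := by group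
      rwa [e, hi'] at this
    exact ha (hA.cen _ a (odd_of_mem hρ h3) hs1 hcs)
  · obtain ⟨F, hF, h⟩ := hvc G hH a ha
    obtain ⟨k, hk, hm⟩ := pigeon hF h hcs.symm
    obtain ⟨l, hl⟩ := mem_zpowers_iff.1 hm
    have h1 : x * (x * x') ^ k * x⁻¹ = (x * x') ^ k := by
      rw [← hl, ← (hc.zpow_left l).eq, mul_inv_cancel_right]
    rw [← conj_zpow, hinv, inv_zpow', ] at h1
    have := zpow_inj hs h1
    omega

theorem cen_zpow (hvc : S_vc) (hcyc : S_cyc) (hmal : S_mal) {i z y : G} (hH : Hyp G)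
    (hA : Alg G i z y) {s : G} (hs : ¬ IsOfFinOrder s)
    (hx : ∀ x : G, x * x = 1 → Commute x s → x = 1) {k : ℤ} (hk : k ≠ 0) :
    ∃ u : G, (∀ a : G, Commute a (s ^ k) ↔ a ∈ zpowers u) ∧
      ∀ a : G, Commute a s ↔ a ∈ zpowers u := by
  have hsk := not_fin_zpow hs hk
  have hA1 : ∀ x : G, x * x = 1 → Commute x (s ^ k) → x = 1 := by
    intro x hxx hc
    by_contra hx1
    by_cases he : x = s * x * s⁻¹
    · refine hx1 (hx x hxx ?_)
      change x * s = s * x
      nth_rewrite 1 [he]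
      group
    · apply hsk
      have h1 : s * x * s⁻¹ * (s * x * s⁻¹) = 1 := by
        have e : s * x * s⁻¹ * (s * x * s⁻¹) = s * (x * x) * s⁻¹ := by group
        rw [e, hxx]; group
      have h2 : s * x * s⁻¹ ≠ 1 := fun h => hx1 (by
        have e : x = s⁻¹ * (s * x * s⁻¹) * s := by group
        rw [e, h]; group)
      have h3 : Commute (s ^ k) (s * x * s⁻¹) :=
        (((Commute.refl s).zpow_left k).mul_right hc.symm).mul_right
          ((Commute.refl s).zpow_left k).inv_right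
      rw [hmal G i z y hH hA x _ (s ^ k) hxx hx1 h1 h2 he hc.symm h3]
      exact IsOfFinOrder.one
  have hA2 : ∀ a : G, Commute a (s ^ k) → IsOfFinOrder a → a = 1 := by
    intro a hc ha
    rcases Nat.even_or_odd (orderOf a) with ⟨r, hr⟩ | ho
    · have h1 : a ^ r * a ^ r = 1 := by rw [← pow_add, ← hr, pow_orderOf_eq_one]
      have h2 := hA1 _ h1 (hc.pow_left r)
      have h3 := ha.orderOf_pos
      have h4 := Nat.le_of_dvd (by omega) (orderOf_dvd_of_pow_eq_one h2)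
      omega
    · by_contra h1
      exact hsk (hA.cen a _ ho h1 hc.symm)
  obtain ⟨F, hF, h⟩ := hvc G hH _ hsk
  obtain ⟨u, hu⟩ := hcyc G _ F hF h hA2
  refine ⟨u, hu, fun a => ⟨fun ha => (hu a).1 (ha.zpow_right k), fun ha => ?_⟩⟩
  obtain ⟨l, rfl⟩ := mem_zpowers_iff.1 ha
  obtain ⟨l', hl'⟩ := mem_zpowers_iff.1 ((hu s).1 ((Commute.refl s).zpow_right k))
  rw [← hl']
  exact (Commute.refl u).zpow_zpow l l'

theorem exists_root (hvc : S_vc) (hcyc : S_cyc) (hmal : S_mal) {i z y : G} (hH : Hyp G)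
    (hA : Alg G i z y) {s : G} (hs : ¬ IsOfFinOrder s)
    (hx : ∀ x : G, x * x = 1 → Commute x s → x = 1) :
    ∃ s₀ : G, s ∈ zpowers s₀ ∧ ¬ IsOfFinOrder s₀ ∧
      ∀ k : ℤ, k ≠ 0 → ∀ a : G, Commute a (s₀ ^ k) ↔ a ∈ zpowers s₀ := by
  obtain ⟨s₀, -, h0⟩ := cen_zpow hvc hcyc hmal hH hA hs hx one_ne_zero
  have hm := (h0 s).1 (Commute.refl s)
  obtain ⟨j, hj⟩ := mem_zpowers_iff.1 hm
  have hs₀ : ¬ IsOfFinOrder s₀ := fun h => hs (hj ▸ h.zpow)
  have hj0 : j ≠ 0 := by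
    rintro rfl
    rw [zpow_zero] at hj
    exact hs (hj ▸ IsOfFinOrder.one)
  have hx₀ : ∀ x : G, x * x = 1 → Commute x s₀ → x = 1 :=
    fun x hxx hc => hx x hxx (hj ▸ hc.zpow_right j)
  refine ⟨s₀, hm, hs₀, fun k hk a => ?_⟩
  obtain ⟨u, h1, h2⟩ := cen_zpow hvc hcyc hmal hH hA hs₀ hx₀ hk
  obtain ⟨u', h1', h2'⟩ := cen_zpow hvc hcyc hmal hH hA hs₀ hx₀ hj0
  rw [h1, ← h2, h2', ← h1', hj, h0]

section Root

variable {s : G} (hs : ¬ IsOfFinOrder s)
  (hc : ∀ k : ℤ, k ≠ 0 → ∀ a : G, Commute a (s ^ k) ↔ a ∈ zpowers s)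
include hc

theorem mem_of_fix {t : G} (h : t * s * t⁻¹ = s) : t ∈ zpowers s := by
  refine (hc 1 one_ne_zero t).1 ?_
  rw [zpow_one]
  change t * s = s * t
  nth_rewrite 2 [← h]
  group

include hs

theorem Epm_cases {e : G} (he : e ∈ Epm s) :
    e ∈ zpowers s ∨ (e * e = 1 ∧ e * s * e⁻¹ = s⁻¹) := by
  rcases he with he | he
  · exact Or.inl (mem_of_fix hc he)
  right
  refine ⟨?_, he⟩
  have h1 : e * e * s * (e * e)⁻¹ = s := by
    have e1 : e * e * s * (e * e)⁻¹ = e * (e * s * e⁻¹) * e⁻¹ := by group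
    have e2 : e * s⁻¹ * e⁻¹ = (e * s * e⁻¹)⁻¹ := by group
    rw [e1, he, e2, he, inv_inv]
  obtain ⟨k, hk⟩ := mem_zpowers_iff.1 (mem_of_fix hc h1)
  have h2 : e * s ^ k * e⁻¹ = s ^ k := by rw [hk]; group
  rw [← conj_zpow, he, inv_zpow'] at h2
  have := zpow_inj hs h2
  have hk0 : k = 0 := by omega
  rw [← hk, hk0, zpow_zero]

theorem amal_Epm : AMal (Epm s) := by
  intro t ht
  have key : ∀ e, e ∈ zpowers s → t⁻¹ * e * t ∈ Epm s → e = 1 := by
    intro e he h
    obtain ⟨k, rfl⟩ := mem_zpowers_iff.1 he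
    by_contra h1
    have hk : k ≠ 0 := by rintro rfl; exact h1 (zpow_zero s)
    rcases Epm_cases hs hc h with h2 | ⟨h2, -⟩
    · obtain ⟨l, hl⟩ := mem_zpowers_iff.1 h2
      have hl0 : l ≠ 0 := by
        rintro rfl
        apply h1
        have e : s ^ k = t * (t⁻¹ * s ^ k * t) * t⁻¹ := by group
        rw [e, ← hl]; group
      have h3 : Commute (t * s * t⁻¹) (s ^ k) := by
        have e : s ^ k = (t * s * t⁻¹) ^ l := by rw [conj_zpow, hl]; group
        rw [e]; exact (Commute.refl _).zpow_right l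
      have h4 : Commute (t⁻¹ * s * t⁻¹⁻¹) (s ^ l) := by
        have e : s ^ l = (t⁻¹ * s * t⁻¹⁻¹) ^ k := by rw [conj_zpow, hl]; group
        rw [e]; exact (Commute.refl _).zpow_right k
      obtain ⟨p, hp⟩ := mem_zpowers_iff.1 ((hc k hk _).1 h3)
      obtain ⟨q, hq⟩ := mem_zpowers_iff.1 ((hc l hl0 _).1 h4)
      have h5 : s ^ (p * q) = s ^ (1 : ℤ) := by
        rw [zpow_mul, hp, conj_zpow, hq]; group
      rcases Int.eq_one_or_neg_one_of_mul_eq_one (zpow_inj hs h5) with h6 | h6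
      · exact ht (Or.inl (by rw [← hp, h6, zpow_one]))
      · exact ht (Or.inr (by rw [← hp, h6, zpow_neg, zpow_one]))
    · have h3 : s ^ (k + k) = s ^ (0 : ℤ) := by
        have e : s ^ (k + k) = t * (t⁻¹ * s ^ k * t * (t⁻¹ * s ^ k * t)) * t⁻¹ := by group
        rw [e, h2]; group
      have := zpow_inj hs h3
      omega
  have hsub : {e : G | (e ∈ Epm s ∧ t⁻¹ * e * t ∈ Epm s) ∧ e ≠ 1}.Subsingleton := by
    rintro a ⟨⟨ha1, ha2⟩, ha3⟩ b ⟨⟨hb1, hb2⟩, hb3⟩
    rcases Epm_cases hs hc ha1 with h | ⟨h1, h2⟩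
    · exact absurd (key a h ha2) ha3
    rcases Epm_cases hs hc hb1 with h | ⟨h3, h4⟩
    · exact absurd (key b h hb2) hb3
    have h5 : a * b * s * (a * b)⁻¹ = s := by
      have e1 : a * b * s * (a * b)⁻¹ = a * (b * s * b⁻¹) * a⁻¹ := by group
      have e2 : a * s⁻¹ * a⁻¹ = (a * s * a⁻¹)⁻¹ := by group
      rw [e1, h4, e2, h2, inv_inv]
    have h6 := key _ (mem_of_fix hc h5) (by
      have := mul_mem ha2 hb2
      have e : t⁻¹ * a * t * (t⁻¹ * b * t) = t⁻¹ * (a * b) * t := by group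
      rwa [e] at this)
    exact (inv_eq_of_mul_eq_one_right h1).symm.trans (inv_eq_of_mul_eq_one_right h6)
  refine (hsub.finite.insert 1).subset fun e he => ?_
  by_cases h : e = 1
  · exact Or.inl h
  · exact Or.inr ⟨he, h⟩

theorem exists_refl : ∃ j : G, ∀ e ∈ Epm s,
    e ∈ zpowers s ∨ (e * j ∈ zpowers s ∧ j * j = 1 ∧ j * s * j⁻¹ = s⁻¹) := by
  by_cases h : ∃ j : G, j * j = 1 ∧ j * s * j⁻¹ = s⁻¹
  · obtain ⟨j, h1, h2⟩ := h
    refine ⟨j, fun e he => ?_⟩
    rcases Epm_cases hs hc he with h3 | ⟨-, h4⟩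
    · exact Or.inl h3
    refine Or.inr ⟨mem_of_fix hc ?_, h1, h2⟩
    have e1 : e * j * s * (e * j)⁻¹ = e * (j * s * j⁻¹) * e⁻¹ := by group
    have e2 : e * s⁻¹ * e⁻¹ = (e * s * e⁻¹)⁻¹ := by group
    rw [e1, h2, e2, h4, inv_inv]
  · refine ⟨1, fun e he => ?_⟩
    rcases Epm_cases hs hc he with h3 | h3
    · exact Or.inl h3
    · exact absurd ⟨e, h3⟩ h

end Root

theorem thm_step (h1 : S_vc) (h2 : S_cyc) (h3 : S_qc) (h4 : S_cone) (h5 : Pool.Agent.H535Z.HG.S_fill) (h6 : S_mal) :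
    S_step := by
  intro G _ i z y hH hA s' hs' hx m hm
  obtain ⟨s, hss, hs, hc⟩ := exists_root h1 h2 h6 hH hA hs' hx
  obtain ⟨V, _, X, o, hG⟩ := hH
  obtain ⟨W, _, Y, o', c, hC⟩ := h4 G V X o (Epm s) hG (h3 G V X o hG s) (amal_Epm hs hc)
  obtain ⟨F₁, hF₁, hF₁E, hfill⟩ := h5 G W Y o' c (Epm s) hC {i, y * i * y⁻¹ * i⁻¹, z * z}
    (Set.toFinite _) (by
      rintro (h | h | h)
      · exact hA.ne h.symm
      · apply hA.yi
        change y * i = i * y
        have e : y * i = y * i * y⁻¹ * i⁻¹ * (i * y) := by group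
        rw [e, ← h, one_mul]
      · exact hA.zinf (isOfFinOrder_iff_pow_eq_one.2 ⟨2, two_pos, by rw [pow_two]; exact h.symm⟩))
  obtain ⟨B, hB⟩ : ∃ B : ℕ, ∀ k : ℤ, s ^ k ∈ F₁ → |k| ≤ B := by
    have hf : ((fun k : ℤ => s ^ k) ⁻¹' F₁).Finite :=
      hF₁.preimage fun a _ b _ h => zpow_inj hs h
    obtain ⟨b, hb⟩ := (hf.image Int.natAbs).bddAbove
    refine ⟨b, fun k hk => ?_⟩
    have : k.natAbs ≤ b := hb ⟨k, hk, rfl⟩
    rw [Int.abs_eq_natAbs]; exact_mod_cast this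
  obtain ⟨n, hn1, hnp⟩ := Nat.exists_infinite_primes (max m (2 * B + 2) + 1)
  have hnm : m < n := by omega
  have hnB : 2 * B + 2 < n := by omega
  have hsE : ∀ k : ℤ, s ^ k ∈ Epm s := fun k => zpow_mem (Or.inl (by group)) k
  have hR : ∀ k : ℤ, s ^ k ∈ zpowers (s ^ (n : ℤ)) ↔ (n : ℤ) ∣ k := by
    intro k
    constructor
    · intro h
      obtain ⟨l, hl⟩ := mem_zpowers_iff.1 h
      rw [← zpow_mul] at hl
      exact ⟨l, (zpow_inj hs hl).symm⟩
    · rintro ⟨l, rfl⟩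
      exact mem_zpowers_iff.2 ⟨l, by rw [zpow_mul]⟩
  obtain ⟨j, hj⟩ := exists_refl hs hc
  obtain ⟨G', _, π, hsur, -, hH', hF, hker, hfin, hlift, hlast⟩ := hfill (zpowers (s ^ (n : ℤ)))
    (by
      intro r hr
      obtain ⟨l, rfl⟩ := mem_zpowers_iff.1 hr
      exact zpow_mem (hsE n) l)
    (by
      intro e he r hr
      refine conj_mem_zpowers ?_ hr
      rcases he with he | he
      · left; rw [← conj_zpow, he]
      · right; rw [← conj_zpow, he, inv_zpow])
    (by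
      intro f hf hr
      obtain ⟨l, rfl⟩ := mem_zpowers_iff.1 hr
      rw [← zpow_mul] at hf ⊢
      have hb := hB _ hf
      have hl : l = 0 := by
        by_contra hl
        rw [abs_mul, abs_of_nonneg (Int.natCast_nonneg n)] at hb
        have : 1 ≤ |l| := Int.one_le_abs hl
        have h7 : (n : ℤ) ≤ n * |l| := le_mul_of_one_le_right (Int.natCast_nonneg n) this
        omega
      rw [hl, mul_zero, zpow_zero])
    (by
      refine ⟨((fun k : ℤ => s ^ k) '' Set.Ico 0 n) ∪ ((fun k : ℤ => s ^ k * j⁻¹) '' Set.Ico 0 n),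
        ((Set.finite_Ico _ _).image _).union ((Set.finite_Ico _ _).image _), fun e he => ?_⟩
      have hn0 : (0 : ℤ) < n := by exact_mod_cast hnp.pos
      have hmod : ∀ k : ℤ, k % n ∈ Set.Ico (0 : ℤ) n :=
        fun k => ⟨Int.emod_nonneg k hn0.ne', Int.emod_lt_of_pos k hn0⟩
      have hsub : ∀ k : ℤ, s ^ k * (s ^ (k % n))⁻¹ ∈ zpowers (s ^ (n : ℤ)) := by
        intro k
        rw [← zpow_sub, hR]
        exact Int.dvd_self_sub_emod
      rcases hj e he with h | ⟨h, -, -⟩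
      · obtain ⟨k, rfl⟩ := mem_zpowers_iff.1 h
        exact ⟨_, Or.inl ⟨_, hmod k, rfl⟩, hsub k⟩
      · obtain ⟨k, hk⟩ := mem_zpowers_iff.1 h
        refine ⟨_, Or.inr ⟨_, hmod k, rfl⟩, ?_⟩
        have e1 : e * (s ^ (k % n) * j⁻¹)⁻¹ = e * j * (s ^ (k % n))⁻¹ := by group
        rw [e1, ← hk]
        exact hsub k)
  have hsn : π s ^ n = 1 := by
    rw [← map_pow, ← zpow_natCast]
    exact (hker _ (hsE n)).2 (mem_zpowers _)
  have hs1 : π s ≠ 1 := by
    intro h
    have h7 := (hker s (by simpa using hsE 1)).1 h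
    have h8 := (hR 1).1 (by simpa using h7)
    have h9 := Int.le_of_dvd one_pos h8
    omega
  have : Fact n.Prime := ⟨hnp⟩
  have hord : ∀ t : G, orderOf (π (t * s * t⁻¹)) = n := by
    intro t
    refine orderOf_eq_prime ?_ ?_
    · rw [map_mul, map_mul, map_inv, conj_pow, hsn]; group
    · intro h
      apply hs1
      have e : π s = (π t)⁻¹ * π (t * s * t⁻¹) * π t := by
        rw [map_mul, map_mul, map_inv]; group
      rw [e, h]; group
  have hodd : Odd n := hnp.odd_of_ne_two (by omega)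
  have hmem : ∀ t e : G, e ∈ zpowers s → π (t * e * t⁻¹) ∈ zpowers (π (t * s * t⁻¹)) := by
    intro t e he
    obtain ⟨k, rfl⟩ := mem_zpowers_iff.1 he
    rw [← conj_zpow, map_zpow]
    exact zpow_mem (mem_zpowers _) k
  have hsq : ∀ t e : G, e * e = 1 → π (t * e * t⁻¹) * π (t * e * t⁻¹) = 1 := by
    intro t e he
    have e1 : t * e * t⁻¹ * (t * e * t⁻¹) = t * (e * e) * t⁻¹ := by group
    rw [← map_mul, e1, he]; simp
  have hdih : Dih G' := by
    intro H hHf
    rcases hfin H hHf with ⟨t, ht⟩ | ⟨H', hH'f, hmap⟩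
    · refine ⟨π (t * s * t⁻¹), π (t * j * t⁻¹), by rw [hord]; exact hodd, fun h hh => ?_⟩
      obtain ⟨e, he, rfl⟩ := ht h hh
      rcases hj e he with h7 | ⟨h7, h8, h9⟩
      · exact Or.inl (hmem t e h7)
      · refine Or.inr ⟨?_, hsq t j h8, ?_⟩
        · have e1 : t * e * t⁻¹ * (t * j * t⁻¹) = t * (e * j) * t⁻¹ := by group
          rw [← map_mul, e1]
          exact hmem t _ h7
        · rw [← map_inv, ← map_inv, ← map_mul, ← map_mul]
          congr 1
          have e1 : t * j * t⁻¹ * (t * s * t⁻¹) * (t * j * t⁻¹)⁻¹ = t * (j * s * j⁻¹) * t⁻¹ := by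
            group
          rw [e1, h9]; group
    · obtain ⟨ρ, j', hρ, h⟩ := hA.dih H' hH'f
      have hmz : ∀ e ∈ zpowers ρ, π e ∈ zpowers (π ρ) := by
        intro e he
        obtain ⟨k, rfl⟩ := mem_zpowers_iff.1 he
        rw [map_zpow]
        exact zpow_mem (mem_zpowers _) k
      refine ⟨π ρ, π j', hρ.of_dvd_nat (orderOf_map_dvd π ρ), fun g hg => ?_⟩
      rw [← hmap] at hg
      obtain ⟨g', hg', rfl⟩ := hg
      rcases h g' hg' with h7 | ⟨h7, h8, h9⟩
      · exact Or.inl (hmz _ h7)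
      · refine Or.inr ⟨by rw [← map_mul]; exact hmz _ h7, by rw [← map_mul, h8, map_one], ?_⟩
        rw [← map_inv, ← map_inv, ← map_mul, ← map_mul, h9]
  have hi2 : π i * π i = 1 := by rw [← map_mul, hA.sq, map_one]
  have hi1 : π i ≠ 1 := hF i (Or.inl rfl)
  refine ⟨G', inferInstance, π, hsur, hH', ⟨hi2, hi1, hA.zi.map π, ?_, ?_, ?_, hdih, ?_⟩, n,
    Nat.coprime_of_lt_prime hm.ne' hnm hnp, hnp.pos, ?_⟩
  · intro hz
    apply hF (z * z) (Or.inr (Or.inr rfl))
    rw [map_mul]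
    rcases dih_comm hdih hi2 hi1 hz (hA.zi.map π) with h | h <;> rw [h]
    · exact mul_one 1
    · exact hi2
  · intro h
    apply hF (y * i * y⁻¹ * i⁻¹) (Or.inr (Or.inl rfl))
    rw [map_mul, map_mul, map_mul, map_inv, map_inv, h.eq]
    group
  · intro x hxx hx1
    have hxf : IsOfFinOrder x :=
      isOfFinOrder_iff_pow_eq_one.2 ⟨2, two_pos, by rw [pow_two]; exact hxx⟩
    have fin : ∀ e : G, e * e = 1 → x = π e → ∃ t : G', x = t * π i * t⁻¹ := by
      intro e he hxe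
      obtain ⟨u, hu⟩ := hA.conj e he (fun h => hx1 (by rw [hxe, h, map_one]))
      exact ⟨π u, by rw [hxe, hu, map_mul, map_mul, map_inv]⟩
    rcases hfin (zpowers x) hxf.finite_zpowers.to_subtype with ⟨t, ht⟩ | ⟨H', hH'f, hmap⟩
    · obtain ⟨e, he, hxe⟩ := ht x (mem_zpowers x)
      rcases Epm_cases hs hc he with h7 | ⟨h7, -⟩
      · exfalso
        refine hx1 (eq_one_of_odd_sq (odd_of_mem (ρ := π (t * s * t⁻¹)) ?_ ?_) hxx)
        · rw [hord]; exact hodd
        · rw [hxe]; exact hmem t e h7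
      · refine fin _ ?_ hxe
        have e1 : t * e * t⁻¹ * (t * e * t⁻¹) = t * (e * e) * t⁻¹ := by group
        rw [e1, h7]; group
    · have hxm : x ∈ H'.map π := by rw [hmap]; exact mem_zpowers x
      obtain ⟨g, hg, hgx⟩ := hxm
      obtain ⟨ρ, j', hρ, h⟩ := hA.dih H' hH'f
      rcases h g hg with h7 | ⟨h7, h8, h9⟩
      · exfalso
        refine hx1 (eq_one_of_odd_sq ?_ hxx)
        rw [← hgx]
        exact (odd_of_mem hρ h7).of_dvd_nat (orderOf_map_dvd π g)
      · exact fin g (sq_of_refl h9 h8 h7) hgx.symm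
  · intro r a hro hr1 hca
    have hrf : IsOfFinOrder r := orderOf_pos_iff.1 hro.pos
    by_cases hE : ∃ t : G, ∃ e ∈ Epm s, r = π (t * e * t⁻¹)
    swap
    · obtain ⟨r', a', hr', ha', hc', ho'⟩ := hlift r a hrf hE hca
      rw [← ha']
      exact π.isOfFinOrder (hA.cen r' a' (ho' ▸ hro) (fun h => hr1 (by rw [← hr', h, map_one])) hc')
    obtain ⟨t, e, he, hre⟩ := hE
    rcases Epm_cases hs hc he with h7 | ⟨h7, -⟩
    swap
    · exact absurd (eq_one_of_odd_sq hro (by rw [hre]; exact hsq t e h7)) hr1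
    obtain ⟨k, hk⟩ := mem_zpowers_iff.1 (hmem t e h7)
    rw [← hre] at hk
    have hρ : π (t * s * t⁻¹) ∈ zpowers r := by
      rw [← hk, mem_zpowers_zpow_iff, hord]
      have hnd : ¬ (n : ℤ) ∣ k := fun h => hr1 (by
        rw [← hk, ← orderOf_dvd_iff_zpow_eq_one, hord]; exact h)
      rw [Int.gcd_comm]
      exact Int.isCoprime_iff_gcd_eq_one.1
        ((Nat.prime_iff_prime_int.1 hnp).coprime_iff_not_dvd.2 hnd)
    have hca' : Commute a (π (t * s * t⁻¹)) := by
      obtain ⟨l, hl⟩ := mem_zpowers_iff.1 hρ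
      rw [← hl]; exact hca.zpow_right l
    obtain ⟨a', rfl⟩ := hsur a
    have hcu : Commute (π (t⁻¹ * a' * t)) (π s) := by
      have e1 := hca'.eq
      change _ * _ = _ * _
      simp only [map_mul, map_inv] at e1 ⊢
      have e2 : (π t)⁻¹ * π a' * π t * π s =
          (π t)⁻¹ * (π a' * (π t * π s * (π t)⁻¹)) * π t := by group
      rw [e2, e1]; group
    rcases hlast (s ^ ((B : ℤ) + 1)) (hsE _) (t⁻¹ * a' * t) ⟨_, hsE ((B : ℤ) + 1), by
      rw [map_mul, map_mul, map_inv, map_zpow, mul_assoc, ← (hcu.zpow_right _).eq]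
      group⟩ with ⟨e', he', hu⟩ | ⟨e₁, he₁, f, hf, hu⟩
    · have hfo : IsOfFinOrder (π e') := by
        rcases Epm_cases hs hc he' with h8 | ⟨h8, -⟩
        · obtain ⟨l, rfl⟩ := mem_zpowers_iff.1 h8
          rw [map_zpow]
          exact (isOfFinOrder_iff_pow_eq_one.2 ⟨n, hnp.pos, hsn⟩).zpow
        · exact isOfFinOrder_iff_pow_eq_one.2
            ⟨2, two_pos, by rw [pow_two, ← map_mul, h8, map_one]⟩
      obtain ⟨q, hq, hq1⟩ := isOfFinOrder_iff_pow_eq_one.1 hfo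
      refine isOfFinOrder_iff_pow_eq_one.2 ⟨q, hq, ?_⟩
      have e1 : π a' = π t * π e' * (π t)⁻¹ := by
        rw [← hu, map_mul, map_mul, map_inv]; group
      rw [e1, conj_pow, hq1]; group
    · exfalso
      obtain ⟨b, hb1, hb2⟩ : ∃ b : ℤ, |b| = B + 1 ∧ e₁⁻¹ * s ^ ((B : ℤ) + 1) * e₁ = s ^ b := by
        have e2 : e₁⁻¹ * s ^ ((B : ℤ) + 1) * e₁ = (e₁⁻¹ * s * e₁⁻¹⁻¹) ^ ((B : ℤ) + 1) := by
          rw [conj_zpow, inv_inv]
        rcases inv_mem he₁ with h8 | h8
        · exact ⟨B + 1, abs_of_nonneg (by omega), by rw [e2, h8]⟩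
        · exact ⟨-(B + 1), by rw [abs_neg]; exact abs_of_nonneg (by omega),
            by rw [e2, h8, inv_zpow']⟩
      rw [hb2] at hu
      have h8 := (hker (s ^ b * f⁻¹) (mul_mem (hsE b) (inv_mem (hF₁E f hf)))).1
        (by rw [map_mul, map_inv, hu, mul_inv_cancel])
      obtain ⟨l, hl⟩ := mem_zpowers_iff.1 h8
      have h9 : f = s ^ (b - n * l) := by
        calc f = ((s ^ (n : ℤ)) ^ l)⁻¹ * s ^ b := by rw [hl]; group
          _ = s ^ (b - n * l) := by
            rw [← zpow_mul, ← zpow_neg, ← zpow_add]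
            congr 1
            ring
      have h10 := hB _ (h9 ▸ hf)
      have hl0 : l ≠ 0 := by
        rintro rfl
        rw [mul_zero, sub_zero, hb1] at h10
        omega
      have h11 : (n : ℤ) ≤ |n * l| := by
        rw [abs_mul, abs_of_nonneg (Int.natCast_nonneg n)]
        exact le_mul_of_one_le_right (Int.natCast_nonneg n) (Int.one_le_abs hl0)
      have h12 : |(n : ℤ) * l| ≤ |b| + |b - n * l| := by
        have := abs_sub b (b - n * l)
        rwa [sub_sub_cancel] at this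
      omega
  · obtain ⟨l, rfl⟩ := mem_zpowers_iff.1 hss
    rw [map_zpow, ← zpow_natCast, ← zpow_mul, mul_comm, zpow_mul, zpow_natCast, hsn, one_zpow]

end Pool.Agent.H53Z.HG
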